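import Pool.Agent.Lib.TG15.Defs
import Pool.Agent.Lib.TG_h35.Wdet
import Pool.Agent.Lib.TGJ_h11.Ex

/-!
# TANK G, the bridge: the affine model `B₀ = k[L, 1 / τ]` and the form `q` (row BC11)
-/

set_option autoImplicit false

namespace Pool.Agent.TGBC30

open Pool.Agent.TG (Bir Wd Walt wmat wrow ncl)
open Pool.Agent.TGJ (Dual)

universe u

variable {k K : Type u} [Field k] [Field K] [Algebra k K] {n : ℕ}

/-- `B₀ = k[L, 1 / τ]`. -/
def B0 (L : Submodule k K) (τ : K) : Subalgebra k K := Algebra.adjoin k ((L : Set K) ∪ {τ⁻¹})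

/-- `q(g) = τ' det (g_j, D_1 g_j, .., D_n g_j)`. -/
def qmap (D : Fin n → Derivation k K K) (τ' : K) : K [⋀^Fin (n + 1)]→ₗ[k] K :=
  (LinearMap.mulLeft k τ').compAlternatingMap (Walt D)

theorem qmap_apply (D : Fin n → Derivation k K K) (τ' : K) (g : Fin (n + 1) → K) :
    qmap D τ' g = τ' * Wd D g := rfl

section Pow

variable {L : Submodule k K}

theorem one_mem_pow (h1 : (1 : K) ∈ L) (s : ℕ) : (1 : K) ∈ L ^ s := by
  have h := Submodule.pow_mem_pow L h1 s
  rwa [one_pow] at h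

theorem pow_le_pow_right (h1 : (1 : K) ∈ L) {s t : ℕ} (hst : s ≤ t) : L ^ s ≤ L ^ t := by
  obtain ⟨r, rfl⟩ := Nat.exists_eq_add_of_le hst
  intro a ha
  rw [pow_add]
  have h := Submodule.mul_mem_mul ha (one_mem_pow h1 r)
  rwa [mul_one] at h

theorem exists_mem_pow (h1 : (1 : K) ∈ L) {a : K} (ha : a ∈ Algebra.adjoin k (L : Set K)) :
    ∃ s, a ∈ L ^ s := by
  induction ha using Algebra.adjoin_induction with
  | mem x hx => exact ⟨1, by rwa [pow_one]⟩
  | algebraMap c => exact ⟨0, by rw [pow_zero]; exact Submodule.mem_one.2 ⟨c, rfl⟩⟩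
  | add x y _ _ hx hy =>
    obtain ⟨s, hs⟩ := hx
    obtain ⟨t, ht⟩ := hy
    exact ⟨max s t, add_mem (pow_le_pow_right h1 (le_max_left s t) hs)
      (pow_le_pow_right h1 (le_max_right s t) ht)⟩
  | mul x y _ _ hx hy =>
    obtain ⟨s, hs⟩ := hx
    obtain ⟨t, ht⟩ := hy
    exact ⟨s + t, by rw [pow_add]; exact Submodule.mul_mem_mul hs ht⟩

theorem exists_mem_pow_finset (h1 : (1 : K) ∈ L) (S : Finset K)
    (hS : ∀ a ∈ S, a ∈ Algebra.adjoin k (L : Set K)) : ∃ s, ∀ a ∈ S, a ∈ L ^ s := by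
  classical
  induction S using Finset.induction_on with
  | empty => exact ⟨0, fun a ha => absurd ha (Finset.notMem_empty a)⟩
  | insert b S _ ih =>
    obtain ⟨s, hs⟩ := ih fun a ha => hS a (Finset.mem_insert_of_mem ha)
    obtain ⟨t, ht⟩ := exists_mem_pow h1 (hS b (Finset.mem_insert_self b S))
    refine ⟨max s t, fun a ha => ?_⟩
    rcases Finset.mem_insert.1 ha with rfl | ha
    · exact pow_le_pow_right h1 (le_max_right s t) ht
    · exact pow_le_pow_right h1 (le_max_left s t) (hs a ha)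

/-- `τ D(L ^ M) ⊆ L ^ (M + e')`. -/
theorem der_pow (D : Derivation k K K) {τ : K} {e' : ℕ} (h1 : (1 : K) ∈ L)
    (hD : ∀ a ∈ L, τ * D a ∈ L ^ e') (M : ℕ) : ∀ a ∈ L ^ M, τ * D a ∈ L ^ (M + e') := by
  induction M with
  | zero =>
    intro a ha
    rw [pow_zero] at ha
    obtain ⟨c, rfl⟩ := Submodule.mem_one.1 ha
    rw [Derivation.map_algebraMap, mul_zero]
    exact zero_mem _
  | succ M ih =>
    intro a ha
    rw [pow_succ] at ha
    induction ha using Submodule.mul_induction_on' with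
    | mem_mul_mem a ha b hb =>
      rw [Derivation.leibniz, smul_eq_mul, smul_eq_mul]
      have h2 : τ * (a * D b + b * D a) = a * (τ * D b) + b * (τ * D a) := by ring
      rw [h2]
      refine add_mem ?_ ?_
      · have h3 : a * (τ * D b) ∈ L ^ (M + e') := by
          rw [pow_add]
          exact Submodule.mul_mem_mul ha (hD b hb)
        exact pow_le_pow_right h1 (by omega) h3
      · have h3 : b * (τ * D a) ∈ L ^ (1 + (M + e')) := by
          rw [pow_add, pow_one]
          exact Submodule.mul_mem_mul hb (ih a ha)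
        exact pow_le_pow_right h1 (by omega) h3
    | add a _ b _ ha hb =>
      rw [map_add, mul_add]
      exact add_mem ha hb

theorem prod_mem_pow {ι : Type*} (s : Finset ι) (f : ι → K) (M : ℕ)
    (hf : ∀ i ∈ s, f i ∈ L ^ M) : ∏ i ∈ s, f i ∈ L ^ (s.card * M) := by
  classical
  induction s using Finset.induction_on with
  | empty =>
    rw [Finset.prod_empty, Finset.card_empty, zero_mul, pow_zero]
    exact Submodule.one_le.1 le_rfl
  | insert a s ha ih =>
    rw [Finset.prod_insert ha, Finset.card_insert_of_notMem ha, Nat.add_mul, one_mul, add_comm,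
      pow_add]
    exact Submodule.mul_mem_mul (hf a (Finset.mem_insert_self a s))
      (ih fun i hi => hf i (Finset.mem_insert_of_mem hi))

/-- (q2) -/
theorem wd_mem_pow (D : Fin n → Derivation k K K) {τ : K} {e' : ℕ} (h1 : (1 : K) ∈ L)
    (hD : ∀ i, ∀ a ∈ L, τ * D i a ∈ L ^ e') (M : ℕ) (g : Fin (n + 1) → K)
    (hg : ∀ j, g j ∈ L ^ M) : τ ^ n * Wd D g ∈ L ^ ((n + 1) * M + n * e') := by
  rw [Wd, Matrix.det_apply, Finset.mul_sum]
  refine Submodule.sum_mem _ fun σ _ => ?_
  have h2 : τ ^ n * ∏ i, wmat D g (σ i) i ∈ L ^ ((n + 1) * M + n * e') := by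
    rw [Fin.prod_univ_succ]
    have h3 : τ ^ n * (wmat D g (σ 0) 0 * ∏ i : Fin n, wmat D g (σ i.succ) i.succ) =
        g (σ 0) * ∏ i : Fin n, (τ * D i (g (σ i.succ))) := by
      rw [Finset.prod_mul_distrib, Finset.prod_const, Finset.card_univ, Fintype.card_fin]
      have h4 : ∀ i : Fin n, wmat D g (σ i.succ) i.succ = D i (g (σ i.succ)) := fun i => rfl
      have h5 : wmat D g (σ 0) 0 = g (σ 0) := rfl
      rw [h5, Finset.prod_congr rfl fun i _ => h4 i]
      ring
    rw [h3]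
    have h6 := prod_mem_pow (L := L) Finset.univ (fun i : Fin n => τ * D i (g (σ i.succ)))
      (M + e') fun i _ => der_pow (D i) h1 (hD i) M _ (hg _)
    rw [Finset.card_univ, Fintype.card_fin] at h6
    have h7 : (n + 1) * M + n * e' = M + n * (M + e') := by ring
    rw [h7, pow_add]
    exact Submodule.mul_mem_mul (hg _) h6
  rcases Int.units_eq_one_or (Equiv.Perm.sign σ) with h | h
  · rw [h, one_smul]
    exact h2
  · rw [h, Units.neg_smul, one_smul, mul_neg]
    exact neg_mem h2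

end Pow

/-- `W(w, w x_1, .., w x_n) = w ^ (n + 1)`. -/
theorem wd_dual {x : Fin n → K} {D : Fin n → Derivation k K K} (hD : Dual x D) (w : K) :
    Wd D (fun j => w * (Fin.cons 1 x : Fin (n + 1) → K) j) = w ^ (n + 1) := by
  classical
  rw [TG.Wd_mul, TG.Wd_one]
  have h1 : (Matrix.of fun j l : Fin n => D l (x j)) = 1 := by
    ext j l
    rw [Matrix.of_apply, hD.dual, Matrix.one_apply]
    by_cases h : j = l
    · rw [if_pos h, if_pos h.symm]
    · rw [if_neg h, if_neg (Ne.symm h)]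
  rw [h1, Matrix.det_one, mul_one]

section Loc

variable {B : Subalgebra k K} {τ : K}

/-- The elements of `B[1 / τ]`. -/
theorem mem_B0 {L : Submodule k K} (hL : Algebra.adjoin k (L : Set K) = B) (hτ : τ ∈ B)
    (hτ0 : τ ≠ 0) {a : K} : a ∈ B0 L τ ↔ ∃ s : ℕ, τ ^ s * a ∈ B := by
  constructor
  · intro ha
    refine Algebra.adjoin_induction (R := k) (s := (L : Set K) ∪ {τ⁻¹})
      (p := fun a _ => ∃ s : ℕ, τ ^ s * a ∈ B) ?_ ?_ ?_ ?_ ha
    · rintro x (hx | hx)
      · exact ⟨0, by rw [pow_zero, one_mul, ← hL]; exact Algebra.subset_adjoin hx⟩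
      · rw [Set.mem_singleton_iff] at hx
        exact ⟨1, by rw [pow_one, hx, mul_inv_cancel₀ hτ0]; exact B.one_mem⟩
    · intro c
      exact ⟨0, by rw [pow_zero, one_mul]; exact B.algebraMap_mem c⟩
    · rintro x y _ _ ⟨s, hs⟩ ⟨t, ht⟩
      refine ⟨s + t, ?_⟩
      have h1 : τ ^ (s + t) * (x + y) = τ ^ t * (τ ^ s * x) + τ ^ s * (τ ^ t * y) := by
        rw [pow_add]; ring
      rw [h1]
      exact B.add_mem (B.mul_mem (B.pow_mem hτ t) hs) (B.mul_mem (B.pow_mem hτ s) ht)
    · rintro x y _ _ ⟨s, hs⟩ ⟨t, ht⟩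
      refine ⟨s + t, ?_⟩
      have h1 : τ ^ (s + t) * (x * y) = (τ ^ s * x) * (τ ^ t * y) := by
        rw [pow_add]; ring
      rw [h1]
      exact B.mul_mem hs ht
  · rintro ⟨s, hs⟩
    have h1 : B ≤ B0 L τ := by
      rw [← hL]
      exact Algebra.adjoin_mono Set.subset_union_left
    have h2 : τ⁻¹ ∈ B0 L τ := Algebra.subset_adjoin (Or.inr rfl)
    have h3 : a = (τ⁻¹) ^ s * (τ ^ s * a) := by
      rw [← mul_assoc, ← mul_pow, inv_mul_cancel₀ hτ0, one_pow, one_mul]
    rw [h3]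
    exact (B0 L τ).mul_mem ((B0 L τ).pow_mem h2 s) (h1 hs)

/-- A common exponent. -/
theorem exists_pow_common (hτ : τ ∈ B) (S : Finset K) (hS : ∀ a ∈ S, ∃ s : ℕ, τ ^ s * a ∈ B) :
    ∃ s : ℕ, ∀ a ∈ S, τ ^ s * a ∈ B := by
  classical
  induction S using Finset.induction_on with
  | empty => exact ⟨0, fun a ha => absurd ha (Finset.notMem_empty a)⟩
  | insert b S _ ih =>
    obtain ⟨s, hs⟩ := ih fun a ha => hS a (Finset.mem_insert_of_mem ha)
    obtain ⟨t, ht⟩ := hS b (Finset.mem_insert_self b S)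
    refine ⟨s + t, fun a ha => ?_⟩
    rcases Finset.mem_insert.1 ha with rfl | ha
    · rw [pow_add, mul_assoc]
      exact B.mul_mem (B.pow_mem hτ s) ht
    · rw [add_comm, pow_add, mul_assoc]
      exact B.mul_mem (B.pow_mem hτ t) (hs a ha)

/-- `B[1 / τ]` is integrally closed. -/
theorem ncl_B0_le {L : Submodule k K} (hL : Algebra.adjoin k (L : Set K) = B) (hτ : τ ∈ B)
    (hτ0 : τ ≠ 0) (hB : ncl B ≤ B) : ncl (B0 L τ) ≤ B0 L τ := by
  classical
  intro a ha
  obtain ⟨p, hp, hc, hr⟩ := TG.exists_poly_of_mem_ncl ha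
  obtain ⟨s, hs⟩ := exists_pow_common hτ (p.support.image p.coeff) (by
    intro b hb
    obtain ⟨i, _, rfl⟩ := Finset.mem_image.1 hb
    exact (mem_B0 hL hτ hτ0).1 (hc i))
  refine (mem_B0 hL hτ hτ0).2 ⟨s, hB ?_⟩
  refine TG.mem_ncl_of_root (A := B) (p.scaleRoots (τ ^ s))
    ((Polynomial.monic_scaleRoots_iff _).2 hp) ?_ ?_
  · intro i
    refine TG.le_ncl B ?_
    rw [Polynomial.coeff_scaleRoots]
    by_cases hi : p.coeff i = 0
    · rw [hi, zero_mul]; exact B.zero_mem
    · rcases eq_or_ne i p.natDegree with h | h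
      · rw [h, Nat.sub_self, pow_zero, mul_one, hp.coeff_natDegree]
        exact B.one_mem
      · have h1 : i < p.natDegree := lt_of_le_of_ne (Polynomial.le_natDegree_of_ne_zero hi) h
        obtain ⟨r, hr⟩ := Nat.exists_eq_add_of_lt h1
        have h2 : p.natDegree - i = r + 1 := by omega
        rw [h2, pow_succ, mul_comm, mul_assoc]
        exact B.mul_mem (B.pow_mem (B.pow_mem hτ s) r)
          (hs _ (Finset.mem_image_of_mem _ (Polynomial.mem_support_iff.2 hi)))
  · have h1 := Polynomial.scaleRoots_eval₂_mul (p := p) (RingHom.id K) a (τ ^ s)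
    simp only [RingHom.id_apply, Polynomial.eval₂_id] at h1
    rw [h1, hr, mul_zero]

/-- The derivations preserve `B[1 / τ]`. -/
theorem der_B0 {L : Submodule k K} (D : Derivation k K K)
    (hD : ∀ a ∈ (L : Set K), D a ∈ B0 L τ) (hDτ : D τ ∈ B0 L τ) (hτ0 : τ ≠ 0) :
    ∀ a ∈ B0 L τ, D a ∈ B0 L τ := by
  intro a ha
  refine Algebra.adjoin_induction (R := k) (s := (L : Set K) ∪ {τ⁻¹})
    (p := fun a _ => D a ∈ B0 L τ) ?_ ?_ ?_ ?_ ha
  · rintro x (hx | hx)
    · exact hD x hx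
    · rw [Set.mem_singleton_iff] at hx
      have h2 : τ⁻¹ ∈ B0 L τ := Algebra.subset_adjoin (Or.inr rfl)
      have h3 : D x = -(τ⁻¹ * τ⁻¹ * D τ) := by
        have h4 : D (τ * τ⁻¹) = 0 := by rw [mul_inv_cancel₀ hτ0, Derivation.map_one_eq_zero]
        rw [Derivation.leibniz, smul_eq_mul, smul_eq_mul] at h4
        have h5 : D τ⁻¹ = τ⁻¹ * (τ * D τ⁻¹) := by
          rw [← mul_assoc, inv_mul_cancel₀ hτ0, one_mul]
        rw [hx, h5, eq_neg_of_add_eq_zero_left h4]
        ring
      rw [h3]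
      exact (B0 L τ).neg_mem ((B0 L τ).mul_mem ((B0 L τ).mul_mem h2 h2) hDτ)
  · intro c
    rw [Derivation.map_algebraMap]
    exact (B0 L τ).zero_mem
  · intro x y _ _ hx hy
    rw [map_add]
    exact (B0 L τ).add_mem hx hy
  · intro x y hx' hy' hx hy
    rw [Derivation.leibniz, smul_eq_mul, smul_eq_mul]
    exact (B0 L τ).add_mem ((B0 L τ).mul_mem hx' hy) ((B0 L τ).mul_mem hy' hx)

end Loc

/-- A common denominator. -/
theorem exists_common_denom {B : Subalgebra k K}
    (hB : ∀ z : K, ∃ a ∈ B, ∃ b ∈ B, b ≠ 0 ∧ z = a / b) (S : Finset K) :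
    ∃ τ ∈ B, τ ≠ 0 ∧ ∀ a ∈ S, τ * a ∈ B := by
  classical
  induction S using Finset.induction_on with
  | empty => exact ⟨1, B.one_mem, one_ne_zero, fun a ha => absurd ha (Finset.notMem_empty a)⟩
  | insert c S _ ih =>
    obtain ⟨t, ht, ht0, hS⟩ := ih
    obtain ⟨a, ha, b, hb, hb0, rfl⟩ := hB c
    refine ⟨t * b, B.mul_mem ht hb, mul_ne_zero ht0 hb0, fun z hz => ?_⟩
    rcases Finset.mem_insert.1 hz with rfl | hz
    · have h1 : t * b * (a / b) = t * a := by
        field_simp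
      rw [h1]
      exact B.mul_mem ht ha
    · rw [mul_comm t b, mul_assoc]
      exact B.mul_mem hb (hS z hz)

/-- The data of the bridge: the affine model and the form `q`. -/
structure BData (n : ℕ) (A₀ : Subalgebra k K) (Z : Finset K) where
  /-- The linear system. -/
  L : Submodule k K
  L_fg : L.FG
  one_mem : (1 : K) ∈ L
  bir : Bir L
  /-- The boundary. -/
  τ : K
  τ_ne : τ ≠ 0
  /-- The degree of `τ`. -/
  e : ℕ
  τ_mem : τ ∈ L ^ e
  /-- The coordinates. -/
  x : Fin n → K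
  x_mem : ∀ j, x j ∈ L
  ind : AlgebraicIndependent k x
  sep : Algebra.IsSeparable (IntermediateField.adjoin k (Set.range x)) K
  /-- The derivations. -/
  D : Fin n → Derivation k K K
  dual : Dual x D
  A₀_le : A₀ ≤ B0 L τ
  Z_mem : ∀ z ∈ Z, z ∈ B0 L τ ∧ z⁻¹ ∈ B0 L τ
  fg : (B0 L τ).FG
  noeth : IsNoetherianRing (B0 L τ)
  frac : IsFractionRing (B0 L τ) K
  icl : IsIntegrallyClosed (B0 L τ)
  ncl_le : ncl (B0 L τ) ≤ B0 L τ
  der : ∀ i, ∀ a ∈ B0 L τ, D i a ∈ B0 L τ
  /-- The bound of the degree. -/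
  c' : ℕ
  q1 : ∀ w : K, w ≠ 0 → ∃ g : Fin (n + 1) → K, (∀ j, g j ∈ (k ∙ w) * L) ∧ qmap D (τ ^ n) g ≠ 0
  q2 : ∀ (M : ℕ) (g : Fin (n + 1) → K), (∀ j, g j ∈ L ^ M) →
    qmap D (τ ^ n) g ∈ L ^ ((n + 1) * M + c')

/-- **BC11.** -/
theorem exists_bdata [PerfectField k] (hK : (⊤ : IntermediateField k K).FG)
    (hn : Algebra.trdeg k K = n) (A₀ : Subalgebra k K) (hA₀ : A₀.FG) (Z : Finset K) :
    Nonempty (BData n A₀ Z) := by
  classical
  have hess : Algebra.EssFiniteType k K := IntermediateField.fg_top_iff.1 hK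
  obtain ⟨x, B, hx, hsep, hxB, hBfg, hBic, hfr⟩ := ALL83.exists_normal (k := k) (K := K) n hn
  obtain ⟨D, hD⟩ := TGJ.exists_Dual (k := k) (K := K) n hn x hsep
  obtain ⟨S, hS⟩ := hBfg
  obtain ⟨SA, hSA⟩ := hA₀
  -- the linear system
  obtain ⟨S', hS'⟩ : ∃ S', S' = S ∪ Finset.univ.image x ∪ {1} := ⟨_, rfl⟩
  have hS'B : ∀ a ∈ S', a ∈ B := by
    intro a ha
    rw [hS', Finset.mem_union, Finset.mem_union, Finset.mem_image, Finset.mem_singleton] at ha
    rcases ha with (ha | ⟨i, _, rfl⟩) | rfl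
    · rw [← hS]; exact Algebra.subset_adjoin ha
    · exact hxB i
    · exact B.one_mem
  have hSS' : ∀ a ∈ S, a ∈ S' := fun a ha => by
    rw [hS', Finset.mem_union, Finset.mem_union]; exact Or.inl (Or.inl ha)
  obtain ⟨L, hLdef⟩ : ∃ L : Submodule k K, L = Submodule.span k (S' : Set K) := ⟨_, rfl⟩
  have hLfg : L.FG := ⟨S', hLdef.symm⟩
  have h1L : (1 : K) ∈ L := by
    rw [hLdef]
    refine Submodule.subset_span (Finset.mem_coe.2 ?_)
    rw [hS', Finset.mem_union, Finset.mem_singleton]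
    exact Or.inr rfl
  have hxL : ∀ j, x j ∈ L := by
    intro j
    rw [hLdef]
    refine Submodule.subset_span (Finset.mem_coe.2 ?_)
    rw [hS', Finset.mem_union, Finset.mem_union]
    exact Or.inl (Or.inr (Finset.mem_image_of_mem _ (Finset.mem_univ j)))
  have hLB' : ∀ a ∈ L, a ∈ B := by
    intro a ha
    have h1 : L ≤ B.toSubmodule := by
      rw [hLdef]
      exact Submodule.span_le.2 fun a ha => hS'B a ha
    exact h1 ha
  have hLB : Algebra.adjoin k (L : Set K) = B := by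
    refine le_antisymm (Algebra.adjoin_le hLB') ?_
    rw [← hS]
    refine Algebra.adjoin_mono fun a ha => ?_
    rw [hLdef]
    exact Submodule.subset_span (Finset.mem_coe.2 (hSS' a ha))
  -- the denominator
  obtain ⟨G, hG⟩ : ∃ G : Finset K, G = SA ∪ Z ∪ Z.image (fun z => z⁻¹) ∪
      Finset.univ.biUnion (fun i : Fin n => S'.image (D i)) := ⟨_, rfl⟩
  obtain ⟨τ, hτB, hτ0, hτG⟩ := exists_common_denom hfr G
  have hB0 : ∀ a, τ * a ∈ B → a ∈ B0 L τ := fun a ha =>
    (mem_B0 hLB hτB hτ0).2 ⟨1, by rwa [pow_one]⟩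
  have hBB0 : B ≤ B0 L τ := fun a ha => hB0 a (B.mul_mem hτB ha)
  have hGB0 : ∀ a ∈ G, a ∈ B0 L τ := fun a ha => hB0 a (hτG a ha)
  have hDS : ∀ i, ∀ a ∈ S', D i a ∈ G := by
    intro i a ha
    rw [hG, Finset.mem_union]
    exact Or.inr (Finset.mem_biUnion.2 ⟨i, Finset.mem_univ i, Finset.mem_image_of_mem _ ha⟩)
  have hDL : ∀ i, ∀ a ∈ L, τ * D i a ∈ B := by
    intro i a ha
    rw [hLdef] at ha
    induction ha using Submodule.span_induction with
    | mem a ha => exact hτG _ (hDS i a ha)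
    | zero => rw [map_zero, mul_zero]; exact B.zero_mem
    | add a b _ _ ha hb => rw [map_add, mul_add]; exact B.add_mem ha hb
    | smul c a _ ha =>
      rw [Derivation.map_smul, mul_smul_comm]
      exact B.smul_mem ha c
  obtain ⟨e, he⟩ := exists_mem_pow h1L (a := τ) (by rw [hLB]; exact hτB)
  -- the exponent for the derivations
  obtain ⟨e', he'⟩ := exists_mem_pow_finset h1L
    (Finset.univ.biUnion fun i : Fin n => S'.image fun a => τ * D i a) (by
      intro b hb
      obtain ⟨i, _, hb⟩ := Finset.mem_biUnion.1 hb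
      obtain ⟨a, ha, rfl⟩ := Finset.mem_image.1 hb
      rw [hLB]
      exact hτG _ (hDS i a ha))
  have hDe : ∀ i, ∀ a ∈ L, τ * D i a ∈ L ^ e' := by
    intro i a ha
    rw [hLdef] at ha
    induction ha using Submodule.span_induction with
    | mem a ha =>
      exact he' _ (Finset.mem_biUnion.2 ⟨i, Finset.mem_univ i, Finset.mem_image_of_mem _ ha⟩)
    | zero => rw [map_zero, mul_zero]; exact zero_mem _
    | add a b _ _ ha hb => rw [map_add, mul_add]; exact add_mem ha hb
    | smul c a _ ha =>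
      rw [Derivation.map_smul, mul_smul_comm]
      exact Submodule.smul_mem _ c ha
  -- fractions
  have hBfr : IsFractionRing B K := by
    refine IsFractionRing.of_field (K := K) B fun z => ?_
    obtain ⟨a, ha, b, hb, _, hz⟩ := hfr z
    exact ⟨⟨a, ha⟩, ⟨b, hb⟩, hz⟩
  have hB0fr : IsFractionRing (B0 L τ) K := by
    refine IsFractionRing.of_field (K := K) (B0 L τ) fun z => ?_
    obtain ⟨a, ha, b, hb, _, hz⟩ := hfr z
    exact ⟨⟨a, hBB0 ha⟩, ⟨b, hBB0 hb⟩, hz⟩
  have hBncl : ncl B ≤ B := by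
    intro a ha
    have h1 : IsIntegral B a := ha
    obtain ⟨b, hb⟩ := (isIntegrallyClosed_iff K).1 hBic h1
    rw [← hb]
    exact b.2
  have hncl := ncl_B0_le hLB hτB hτ0 hBncl
  have hic : IsIntegrallyClosed (B0 L τ) := by
    refine (isIntegrallyClosed_iff K).2 fun {a} ha => ?_
    exact ⟨⟨a, hncl ha⟩, rfl⟩
  have hfg : (B0 L τ).FG := by
    refine ⟨S' ∪ {τ⁻¹}, ?_⟩
    refine le_antisymm (Algebra.adjoin_mono ?_) ?_
    · intro a ha
      rw [Finset.coe_union, Finset.coe_singleton] at ha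
      rcases ha with ha | ha
      · left
        rw [hLdef]
        exact Submodule.subset_span ha
      · exact Or.inr ha
    · rw [B0]
      refine Algebra.adjoin_le ?_
      rintro a (ha | ha)
      · have h1 : L ≤ (Algebra.adjoin k ((S' ∪ {τ⁻¹} : Finset K) : Set K)).toSubmodule := by
          rw [hLdef]
          refine Submodule.span_le.2 fun a ha => ?_
          refine Algebra.subset_adjoin ?_
          rw [Finset.coe_union]
          exact Or.inl ha
        exact h1 ha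
      · refine Algebra.subset_adjoin ?_
        rw [Finset.coe_union, Finset.coe_singleton]
        exact Or.inr ha
  have hno : IsNoetherianRing (B0 L τ) := by
    have h1 : Algebra.FiniteType k (B0 L τ) := (Subalgebra.fg_iff_finiteType _).1 hfg
    exact Algebra.FiniteType.isNoetherianRing k (B0 L τ)
  refine ⟨{
    L := L
    L_fg := hLfg
    one_mem := h1L
    bir := ?_
    τ := τ
    τ_ne := hτ0
    e := e
    τ_mem := he
    x := x
    x_mem := hxL
    ind := hx
    sep := hsep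
    D := D
    dual := hD
    A₀_le := ?_
    Z_mem := ?_
    fg := hfg
    noeth := hno
    frac := hB0fr
    icl := hic
    ncl_le := hncl
    der := ?_
    c' := n * e'
    q1 := ?_
    q2 := fun M g hg => wd_mem_pow D h1L hDe M g hg }⟩
  · -- birational
    rw [Bir, eq_top_iff]
    intro z _
    have h1 : ∀ a ∈ B, a ∈ IntermediateField.adjoin k {x : K | ∃ f ∈ L, ∃ g ∈ L, x = g / f} := by
      intro a ha
      rw [← hLB] at ha
      have h2 : Algebra.adjoin k (L : Set K) ≤ (IntermediateField.adjoin k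
          {x : K | ∃ f ∈ L, ∃ g ∈ L, x = g / f}).toSubalgebra := by
        refine Algebra.adjoin_le fun a ha => ?_
        exact IntermediateField.subset_adjoin _ _ ⟨1, h1L, a, ha, by rw [div_one]⟩
      exact h2 ha
    obtain ⟨a, ha, b, hb, _, rfl⟩ := hfr z
    exact div_mem (h1 a ha) (h1 b hb)
  · rw [← hSA]
    refine Algebra.adjoin_le fun a ha => hGB0 a ?_
    rw [hG, Finset.mem_union, Finset.mem_union, Finset.mem_union]
    exact Or.inl (Or.inl (Or.inl ha))
  · intro z hz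
    refine ⟨hGB0 z ?_, hGB0 z⁻¹ ?_⟩
    · rw [hG, Finset.mem_union, Finset.mem_union, Finset.mem_union]
      exact Or.inl (Or.inl (Or.inr hz))
    · rw [hG, Finset.mem_union, Finset.mem_union]
      exact Or.inl (Or.inr (Finset.mem_image_of_mem _ hz))
  · intro i
    refine der_B0 (D i) (fun a ha => hB0 _ (hDL i a ha)) ?_ hτ0
    -- the derivative of `τ ∈ B`
    have h1 : ∀ a ∈ B, D i a ∈ B0 L τ := by
      intro a ha
      rw [← hLB] at ha
      induction ha using Algebra.adjoin_induction with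
      | mem a ha => exact hB0 _ (hDL i a ha)
      | algebraMap c => rw [Derivation.map_algebraMap]; exact (B0 L τ).zero_mem
      | add a b _ _ ha hb => rw [map_add]; exact (B0 L τ).add_mem ha hb
      | mul a b ha' hb' ha hb =>
        rw [hLB] at ha' hb'
        rw [Derivation.leibniz, smul_eq_mul, smul_eq_mul]
        exact (B0 L τ).add_mem ((B0 L τ).mul_mem (hBB0 ha') hb)
          ((B0 L τ).mul_mem (hBB0 hb') ha)
    exact h1 τ hτB
  · intro w hw
    refine ⟨fun j => w * (Fin.cons 1 x : Fin (n + 1) → K) j, fun j => ?_, ?_⟩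
    · refine Submodule.mul_mem_mul (Submodule.mem_span_singleton_self w) ?_
      refine Fin.cases ?_ (fun l => ?_) j
      · rw [Fin.cons_zero]; exact h1L
      · rw [Fin.cons_succ]; exact hxL l
    · rw [qmap_apply, wd_dual hD]
      exact mul_ne_zero (pow_ne_zero _ hτ0) (pow_ne_zero _ hw)

/-- (q3) -/
theorem qmap_eq (D : Fin n → Derivation k K K) (τ' : K) (g : Fin (n + 1) → K) (h0 : g 0 ≠ 0) :
    qmap D τ' g = τ' * (g 0 ^ (n + 1) *
      (Matrix.of fun j l : Fin n => D l (g j.succ / g 0)).det) := by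
  have h1 : g = Fin.cons (g 0) (fun j => g j.succ) := by
    funext j
    refine Fin.cases rfl (fun l => rfl) j
  rw [qmap_apply]
  conv_lhs => rw [h1]
  rw [TG.Wd_cons D (g 0) h0]

/-- (q3), with the Jacobian determinant. -/
theorem qmap_eq_jac (D : Fin n → Derivation k K K) (τ' : K) (g : Fin (n + 1) → K)
    (h0 : g 0 ≠ 0) :
    qmap D τ' g = τ' * (g 0 ^ (n + 1) * TGJ.jac D (fun j => g j.succ / g 0)) := by
  rw [qmap_eq D τ' g h0, TGJ.jac, ← Matrix.det_transpose]
  rfl

end Pool.Agent.TGBC30
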