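import Pool.Agent.Lib.TGBC_h30.Data
import Pool.Agent.Lib.TGJ_h25.TopDefs

/-!
# TANK G, the bridge: the data of BC11 inside a given normal algebra (row DATA)
-/

set_option autoImplicit false

namespace Pool.Agent.TGBC30

open Pool.Agent.TG (Bir Wd Walt wmat wrow ncl)
open Pool.Agent.TGJ (Dual)
open Module KaehlerDifferential

universe u

variable {k K : Type u} [Field k] [Field K] [Algebra k K] {n : ℕ}

/-- The data over a given normal algebra `B`. -/
theorem exists_bdata_of [PerfectField k] (hK : (⊤ : IntermediateField k K).FG)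
    (hn : Algebra.trdeg k K = n) (A₀ : Subalgebra k K) (hA₀ : A₀.FG) (Z : Finset K)
    (x : Fin n → K) (B : Subalgebra k K) (hx : AlgebraicIndependent k x)
    (hsep : Algebra.IsSeparable (IntermediateField.adjoin k (Set.range x)) K)
    (hxB : ∀ i, x i ∈ B) (hBfg : B.FG) (hBncl : ncl B ≤ B)
    (hfr : ∀ z : K, ∃ a ∈ B, ∃ b ∈ B, b ≠ 0 ∧ z = a / b) :
    ∃ d : BData n A₀ Z, (∀ l ∈ d.L, l ∈ B) ∧ d.τ ∈ B ∧ Algebra.adjoin k (d.L : Set K) = B := by
  classical
  have hess : Algebra.EssFiniteType k K := IntermediateField.fg_top_iff.1 hK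
  obtain ⟨D, hD⟩ := TGJ.exists_Dual (k := k) (K := K) n hn x hsep
  obtain ⟨S, hS⟩ := hBfg
  obtain ⟨SA, hSA⟩ := hA₀
  -- the linear system
  obtain ⟨S', hS'⟩ : ∃ S', S' = S ∪ Finset.univ.image x ∪ {1} := ⟨_, rfl⟩
  have hS'B : ∀ a ∈ S', a ∈ B := by
    intro a ha
    rw [hS', Finset.mem_union, Finset.mem_union, Finset.mem_image, Finset.mem_singleton] at ha
    rcases ha with (ha | ⟨i, _, rfl⟩) | rfl
    · rw [← hS]; exact Algebra.subset_adjoin ha
    · exact hxB i
    · exact B.one_mem
  have hSS' : ∀ a ∈ S, a ∈ S' := fun a ha => by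
    rw [hS', Finset.mem_union, Finset.mem_union]; exact Or.inl (Or.inl ha)
  obtain ⟨L, hLdef⟩ : ∃ L : Submodule k K, L = Submodule.span k (S' : Set K) := ⟨_, rfl⟩
  have hLfg : L.FG := ⟨S', hLdef.symm⟩
  have h1L : (1 : K) ∈ L := by
    rw [hLdef]
    refine Submodule.subset_span (Finset.mem_coe.2 ?_)
    rw [hS', Finset.mem_union, Finset.mem_singleton]
    exact Or.inr rfl
  have hxL : ∀ j, x j ∈ L := by
    intro j
    rw [hLdef]
    refine Submodule.subset_span (Finset.mem_coe.2 ?_)
    rw [hS', Finset.mem_union, Finset.mem_union]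
    exact Or.inl (Or.inr (Finset.mem_image_of_mem _ (Finset.mem_univ j)))
  have hLB' : ∀ a ∈ L, a ∈ B := by
    intro a ha
    have h1 : L ≤ B.toSubmodule := by
      rw [hLdef]
      exact Submodule.span_le.2 fun a ha => hS'B a ha
    exact h1 ha
  have hLB : Algebra.adjoin k (L : Set K) = B := by
    refine le_antisymm (Algebra.adjoin_le hLB') ?_
    rw [← hS]
    refine Algebra.adjoin_mono fun a ha => ?_
    rw [hLdef]
    exact Submodule.subset_span (Finset.mem_coe.2 (hSS' a ha))
  -- the denominator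
  obtain ⟨G, hG⟩ : ∃ G : Finset K, G = SA ∪ Z ∪ Z.image (fun z => z⁻¹) ∪
      Finset.univ.biUnion (fun i : Fin n => S'.image (D i)) := ⟨_, rfl⟩
  obtain ⟨τ, hτB, hτ0, hτG⟩ := exists_common_denom hfr G
  have hB0 : ∀ a, τ * a ∈ B → a ∈ B0 L τ := fun a ha =>
    (mem_B0 hLB hτB hτ0).2 ⟨1, by rwa [pow_one]⟩
  have hBB0 : B ≤ B0 L τ := fun a ha => hB0 a (B.mul_mem hτB ha)
  have hGB0 : ∀ a ∈ G, a ∈ B0 L τ := fun a ha => hB0 a (hτG a ha)
  have hDS : ∀ i, ∀ a ∈ S', D i a ∈ G := by
    intro i a ha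
    rw [hG, Finset.mem_union]
    exact Or.inr (Finset.mem_biUnion.2 ⟨i, Finset.mem_univ i, Finset.mem_image_of_mem _ ha⟩)
  have hDL : ∀ i, ∀ a ∈ L, τ * D i a ∈ B := by
    intro i a ha
    rw [hLdef] at ha
    induction ha using Submodule.span_induction with
    | mem a ha => exact hτG _ (hDS i a ha)
    | zero => rw [map_zero, mul_zero]; exact B.zero_mem
    | add a b _ _ ha hb => rw [map_add, mul_add]; exact B.add_mem ha hb
    | smul c a _ ha =>
      rw [Derivation.map_smul, mul_smul_comm]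
      exact B.smul_mem ha c
  obtain ⟨e, he⟩ := exists_mem_pow h1L (a := τ) (by rw [hLB]; exact hτB)
  -- the exponent for the derivations
  obtain ⟨e', he'⟩ := exists_mem_pow_finset h1L
    (Finset.univ.biUnion fun i : Fin n => S'.image fun a => τ * D i a) (by
      intro b hb
      obtain ⟨i, _, hb⟩ := Finset.mem_biUnion.1 hb
      obtain ⟨a, ha, rfl⟩ := Finset.mem_image.1 hb
      rw [hLB]
      exact hτG _ (hDS i a ha))
  have hDe : ∀ i, ∀ a ∈ L, τ * D i a ∈ L ^ e' := by
    intro i a ha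
    rw [hLdef] at ha
    induction ha using Submodule.span_induction with
    | mem a ha =>
      exact he' _ (Finset.mem_biUnion.2 ⟨i, Finset.mem_univ i, Finset.mem_image_of_mem _ ha⟩)
    | zero => rw [map_zero, mul_zero]; exact zero_mem _
    | add a b _ _ ha hb => rw [map_add, mul_add]; exact add_mem ha hb
    | smul c a _ ha =>
      rw [Derivation.map_smul, mul_smul_comm]
      exact Submodule.smul_mem _ c ha
  -- fractions
  have hB0fr : IsFractionRing (B0 L τ) K := by
    refine IsFractionRing.of_field (K := K) (B0 L τ) fun z => ?_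
    obtain ⟨a, ha, b, hb, _, hz⟩ := hfr z
    exact ⟨⟨a, hBB0 ha⟩, ⟨b, hBB0 hb⟩, hz⟩
  have hncl := ncl_B0_le hLB hτB hτ0 hBncl
  have hic : IsIntegrallyClosed (B0 L τ) := by
    refine (isIntegrallyClosed_iff K).2 fun {a} ha => ?_
    exact ⟨⟨a, hncl ha⟩, rfl⟩
  have hfg : (B0 L τ).FG := by
    refine ⟨S' ∪ {τ⁻¹}, ?_⟩
    refine le_antisymm (Algebra.adjoin_mono ?_) ?_
    · intro a ha
      rw [Finset.coe_union, Finset.coe_singleton] at ha
      rcases ha with ha | ha
      · left
        rw [hLdef]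
        exact Submodule.subset_span ha
      · exact Or.inr ha
    · rw [B0]
      refine Algebra.adjoin_le ?_
      rintro a (ha | ha)
      · have h1 : L ≤ (Algebra.adjoin k ((S' ∪ {τ⁻¹} : Finset K) : Set K)).toSubmodule := by
          rw [hLdef]
          refine Submodule.span_le.2 fun a ha => ?_
          refine Algebra.subset_adjoin ?_
          rw [Finset.coe_union]
          exact Or.inl ha
        exact h1 ha
      · refine Algebra.subset_adjoin ?_
        rw [Finset.coe_union, Finset.coe_singleton]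
        exact Or.inr ha
  have hno : IsNoetherianRing (B0 L τ) := by
    have h1 : Algebra.FiniteType k (B0 L τ) := (Subalgebra.fg_iff_finiteType _).1 hfg
    exact Algebra.FiniteType.isNoetherianRing k (B0 L τ)
  refine ⟨{
    L := L
    L_fg := hLfg
    one_mem := h1L
    bir := ?_
    τ := τ
    τ_ne := hτ0
    e := e
    τ_mem := he
    x := x
    x_mem := hxL
    ind := hx
    sep := hsep
    D := D
    dual := hD
    A₀_le := ?_
    Z_mem := ?_
    fg := hfg
    noeth := hno
    frac := hB0fr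
    icl := hic
    ncl_le := hncl
    der := ?_
    c' := n * e'
    q1 := ?_
    q2 := fun M g hg => wd_mem_pow D h1L hDe M g hg }, hLB', hτB, hLB⟩
  · -- birational
    rw [Bir, eq_top_iff]
    intro z _
    have h1 : ∀ a ∈ B, a ∈ IntermediateField.adjoin k {x : K | ∃ f ∈ L, ∃ g ∈ L, x = g / f} := by
      intro a ha
      rw [← hLB] at ha
      have h2 : Algebra.adjoin k (L : Set K) ≤ (IntermediateField.adjoin k
          {x : K | ∃ f ∈ L, ∃ g ∈ L, x = g / f}).toSubalgebra := by
        refine Algebra.adjoin_le fun a ha => ?_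
        exact IntermediateField.subset_adjoin _ _ ⟨1, h1L, a, ha, by rw [div_one]⟩
      exact h2 ha
    obtain ⟨a, ha, b, hb, _, rfl⟩ := hfr z
    exact div_mem (h1 a ha) (h1 b hb)
  · rw [← hSA]
    refine Algebra.adjoin_le fun a ha => hGB0 a ?_
    rw [hG, Finset.mem_union, Finset.mem_union, Finset.mem_union]
    exact Or.inl (Or.inl (Or.inl ha))
  · intro z hz
    refine ⟨hGB0 z ?_, hGB0 z⁻¹ ?_⟩
    · rw [hG, Finset.mem_union, Finset.mem_union, Finset.mem_union]
      exact Or.inl (Or.inl (Or.inr hz))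
    · rw [hG, Finset.mem_union, Finset.mem_union]
      exact Or.inl (Or.inr (Finset.mem_image_of_mem _ hz))
  · intro i
    refine der_B0 (D i) (fun a ha => hB0 _ (hDL i a ha)) ?_ hτ0
    -- the derivative of `τ ∈ B`
    have h1 : ∀ a ∈ B, D i a ∈ B0 L τ := by
      intro a ha
      rw [← hLB] at ha
      induction ha using Algebra.adjoin_induction with
      | mem a ha => exact hB0 _ (hDL i a ha)
      | algebraMap c => rw [Derivation.map_algebraMap]; exact (B0 L τ).zero_mem
      | add a b _ _ ha hb => rw [map_add]; exact (B0 L τ).add_mem ha hb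
      | mul a b ha' hb' ha hb =>
        rw [hLB] at ha' hb'
        rw [Derivation.leibniz, smul_eq_mul, smul_eq_mul]
        exact (B0 L τ).add_mem ((B0 L τ).mul_mem (hBB0 ha') hb)
          ((B0 L τ).mul_mem (hBB0 hb') ha)
    exact h1 τ hτB
  · intro w hw
    refine ⟨fun j => w * (Fin.cons 1 x : Fin (n + 1) → K) j, fun j => ?_, ?_⟩
    · refine Submodule.mul_mem_mul (Submodule.mem_span_singleton_self w) ?_
      refine Fin.cases ?_ (fun l => ?_) j
      · rw [Fin.cons_zero]; exact h1L
      · rw [Fin.cons_succ]; exact hxL l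
    · rw [qmap_apply, wd_dual hD]
      exact mul_ne_zero (pow_ne_zero _ hτ0) (pow_ne_zero _ hw)


/-- A separating transcendence basis inside a set which generates the field. -/
theorem exists_sep_basis [PerfectField k] (hK : (⊤ : IntermediateField k K).FG)
    (hn : Algebra.trdeg k K = n) (S : Set K) (hS : IntermediateField.adjoin k S = ⊤) :
    ∃ x : Fin n → K, (∀ i, x i ∈ S) ∧ AlgebraicIndependent k x ∧
      Algebra.IsSeparable (IntermediateField.adjoin k (Set.range x)) K := by
  classical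
  have hess : Algebra.EssFiniteType k K := IntermediateField.fg_top_iff.1 hK
  have hfr : finrank K Ω[K⁄k] = n :=
    le_antisymm (ALB.finrank_kaehler_le n hn.le) (TA.le_finrank_kaehler n hn)
  have hspan := ALB.span_D_of_adjoin (k := k) (K := K) S hS
  obtain ⟨b, hbs, hspan', hli⟩ := exists_linearIndependent K (D k K '' S)
  rw [hspan] at hspan'
  have hfin : FiniteDimensional K Ω[K⁄k] := inferInstance
  obtain ⟨Bs⟩ : Nonempty (Basis b K Ω[K⁄k]) :=
    ⟨Basis.mk hli (by rw [Subtype.range_coe_subtype, Set.ofPred_mem_eq, hspan'])⟩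
  have hbfin : Finite b := Module.Finite.finite_basis Bs
  have hbft : Fintype b := Fintype.ofFinite b
  have hcard : Fintype.card b = n := by
    rw [← hfr, Module.finrank_eq_card_basis Bs]
  obtain ⟨e⟩ : Nonempty (Fin n ≃ b) := ⟨(Fintype.equivFinOfCardEq hcard).symm⟩
  choose t htS htb using fun y : b => hbs y.2
  obtain ⟨x, hx⟩ : ∃ x : Fin n → K, ∀ i, x i = t (e i) := ⟨_, fun _ => rfl⟩
  have hDx : D k K '' (Set.range x) = b := by
    ext w
    constructor
    · rintro ⟨_, ⟨i, rfl⟩, rfl⟩
      rw [hx, htb]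
      exact (e i).2
    · intro hw
      refine ⟨x (e.symm ⟨w, hw⟩), ⟨_, rfl⟩, ?_⟩
      rw [hx, Equiv.apply_symm_apply, htb]
  have hsep : Algebra.IsSeparable (IntermediateField.adjoin k (Set.range x)) K :=
    ALB.separable_of_span_D _ (by rw [hDx]; exact hspan')
  have halg : Algebra.IsAlgebraic (IntermediateField.adjoin k (Set.range x)) K := inferInstance
  have halg3 : Algebra.IsAlgebraic (Algebra.adjoin k (Set.range x)) K := by
    open scoped IntermediateField.algebraAdjoinAdjoin in
    exact (IsFractionRing.comap_isAlgebraic_iff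
      (A := Algebra.adjoin k (Set.range x))
      (K := IntermediateField.adjoin k (Set.range x)) (C := K)).2 halg
  have htb := Algebra.IsAlgebraic.isTranscendenceBasis_of_lift_le_trdeg_of_finite k x (by
    rw [hn]
    simp)
  exact ⟨x, fun i => by rw [hx]; exact htS _, htb.1, hsep⟩

/-- **BC11 inside `A₀`**: the linear system and `τ` lie in the normal algebra `A₀`. -/
theorem exists_bdata_le [PerfectField k] (hK : (⊤ : IntermediateField k K).FG)
    (hn : Algebra.trdeg k K = n) (A₀ : Subalgebra k K) (hA₀ : A₀.FG)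
    (hic : ∀ a : K, IsIntegral A₀ a → a ∈ A₀)
    (hfr : ∀ x : K, ∃ a ∈ A₀, ∃ b ∈ A₀, b ≠ 0 ∧ x = a / b) (Z : Finset K) :
    ∃ d : BData n A₀ Z, (∀ l ∈ d.L, l ∈ A₀) ∧ d.τ ∈ A₀ ∧
      Algebra.adjoin k (d.L : Set K) = A₀ := by
  have hadj : IntermediateField.adjoin k (A₀ : Set K) = ⊤ := by
    rw [eq_top_iff]
    intro z _
    obtain ⟨a, ha, b, hb, _, rfl⟩ := hfr z
    exact div_mem (IntermediateField.subset_adjoin _ _ ha) (IntermediateField.subset_adjoin _ _ hb)
  obtain ⟨x, hxA, hx, hsep⟩ := exists_sep_basis hK hn (A₀ : Set K) hadj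
  exact exists_bdata_of hK hn A₀ hA₀ Z x A₀ hx hsep hxA hA₀ (fun a ha => hic a ha) hfr

/-- **Row DATA** of `TopDefs`. -/
theorem rowData (k K : Type u) [Field k] [Field K] [Algebra k K] : TGTop.RowData k K := by
  intro hk hK n hn A₀ hA₀ hic hfr
  obtain ⟨d, hd, -, -⟩ := exists_bdata_le hK hn A₀ hA₀ hic hfr ∅
  exact ⟨d, hd⟩

end Pool.Agent.TGBC30
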